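import Pool.Agent.helper56.NR.Spec

/-!
# Project nr: (MP_af9036_an): module `EXQ`: expanding scales
-/

set_option autoImplicit false

open Complex Metric Set Filter Topology MeasureTheory Pool.Agent.helper98.ILF

open EX (ff)

noncomputable section

namespace NR

/-- The branch of `f^{-m}` on `ball 0 r` with `G (v m) = c`, where `m` is the first index with
`‖v m‖ < r`. -/
theorem EXQ_branch (hLIF : EX.LIF_stmt) (hMOB : EX.MOB_stmt) (n : ℕ) (c : ℂ) (r : ℝ) (m : ℕ)
    (hn : 1 ≤ n) (hr : 0 < r) (hmin : ∀ l < m, r ≤ ‖vv n c l‖) (hm : ‖vv n c m‖ < r) :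
    ∃ G : ℂ → ℂ, Brc n c m 0 r G ∧ G (vv n c m) = c := by
  have hrc : (r : ℂ) ≠ 0 := by
    exact_mod_cast hr.ne'
  have ha : vv n c m / r ∈ ball (0 : ℂ) 1 := by
    rw [mem_ball_zero_iff, norm_div, Complex.norm_real, Real.norm_of_nonneg hr.le, div_lt_one hr]
    exact hm
  set a : ℂ := vv n c m / r with hadef
  have hna : -a ∈ ball (0 : ℂ) 1 := by
    rw [mem_ball_zero_iff, norm_neg]
    exact mem_ball_zero_iff.1 ha
  obtain ⟨-, hd, hmt, -, h0, -, hinv, -, -⟩ := hMOB a ha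
  obtain ⟨-, hd', hmt', -, -, h0', -, -, -⟩ := hMOB (-a) hna
  rw [neg_neg] at h0'
  have hra : (r : ℂ) * a = vv n c m := by
    rw [hadef]
    field_simp
  rcases hLIF n c (fun z => (r : ℂ) * EX.tau a z) c m hn (hd.const_mul _)
    (by show vv n c m = _; simp only [h0]; exact hra.symm) with ⟨g, hg, hg0, hgΦ⟩ | ⟨j, hj, g, _, _, hgΦ, z₀, hz₀, hgz⟩
  · have hmap : ∀ w ∈ ball (0 : ℂ) r, w / r ∈ ball (0 : ℂ) 1 := by
      intro w hw
      rw [mem_ball_zero_iff] at hw ⊢
      rw [norm_div, Complex.norm_real, Real.norm_of_nonneg hr.le, div_lt_one hr]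
      exact hw
    refine ⟨fun w => g (EX.tau (-a) (w / r)), ⟨?_, ?_⟩, ?_⟩
    · exact hg.comp (hd'.comp ((differentiable_id.div_const _).differentiableOn) hmap)
        (fun w hw => hmt' (hmap w hw))
    · intro w hw
      rw [hgΦ _ (hmt' (hmap w hw))]
      show (r : ℂ) * EX.tau a (EX.tau (-a) (w / r)) = w
      rw [(hinv _ (hmap w hw)).2]
      field_simp
    · show g (EX.tau (-a) (vv n c m / r)) = c
      rw [← hadef, h0', hg0]
  · exfalso
    have h1 := hgΦ z₀ hz₀
    rw [hgz] at h1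
    have h2 := hmin j hj
    have h3 : vv n c j = (r : ℂ) * EX.tau a z₀ := h1
    rw [h3, norm_mul, Complex.norm_real, Real.norm_of_nonneg hr.le] at h2
    have h4 := mem_ball_zero_iff.1 (hmt hz₀)
    nlinarith

theorem EXQ (hLIF : EX.LIF_stmt) (hMOB : EX.MOB_stmt) : EXQ_stmt := by
  intro n c M ξ τ L hn hM hξ hτ hL hint hE hU
  by_contra hcon
  push Not at hcon
  classical
  have hn1 : 1 ≤ n := by omega
  have h0 : ‖vv n c (L - 1)‖ < 4 * ξ := by
    rw [vv_eq n c hn1, Nat.sub_add_cancel hL]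
    have := hU 0 (by rw [norm_zero, zero_pow (by omega)]; exact hτ)
    rwa [mem_ball_zero_iff] at this
  have hex : ∃ m, ‖vv n c m‖ < 5 * ξ := ⟨L - 1, by linarith⟩
  have hm : ‖vv n c (Nat.find hex)‖ < 5 * ξ := Nat.find_spec hex
  have hmin : ∀ l < Nat.find hex, 5 * ξ ≤ ‖vv n c l‖ := fun l hl => not_lt.1 (Nat.find_min hex hl)
  have hmL : Nat.find hex ≤ L - 1 := Nat.find_min' hex (by linarith)
  generalize Nat.find hex = m at hm hmin hmL
  obtain ⟨G, hG, hGc⟩ := EXQ_branch hLIF hMOB n c (5 * ξ) m hn1 (by positivity) hmin hm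
  have hEG := hE m G hmin hm hG hGc
  have key : ∀ w ∈ ball (0 : ℂ) (22 / 5 * ξ), ∃ u : ℂ, ‖u‖ ^ n < τ ∧ (ff n c)^[m + 1] u = w := by
    intro w hw
    obtain ⟨u, hu⟩ := IsAlgClosed.exists_pow_nat_eq (G w - c) (show 0 < n by omega)
    refine ⟨u, ?_, ?_⟩
    · rw [← norm_pow, hu]
      exact (hEG w hw).trans_le hcon
    · rw [Function.iterate_succ_apply]
      have h1 : ff n c u = G w := by
        unfold ff
        rw [hu]
        ring
      rw [h1]
      refine hG.2 w ?_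
      rw [mem_ball_zero_iff] at hw ⊢
      linarith
  obtain ⟨p, hp⟩ : ∃ p, L = p + (m + 1) := ⟨L - (m + 1), by omega⟩
  have key2 : ∀ w ∈ ball (0 : ℂ) (22 / 5 * ξ), (ff n c)^[p] w ∈ ball (0 : ℂ) (4 * ξ) := by
    intro w hw
    obtain ⟨u, hu, huw⟩ := key w hw
    have h1 := hU u hu
    rw [hp, Function.iterate_add_apply, huw] at h1
    exact h1
  rcases Nat.eq_zero_or_pos p with hp0 | hp0
  · have h1 : ((21 / 5 * ξ : ℝ) : ℂ) ∈ ball (0 : ℂ) (22 / 5 * ξ) := by
      rw [mem_ball_zero_iff, Complex.norm_real, Real.norm_of_nonneg (by positivity)]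
      linarith
    have h2 := key2 _ h1
    rw [hp0, Function.iterate_zero, id_eq, mem_ball_zero_iff, Complex.norm_real,
      Real.norm_of_nonneg (by positivity)] at h2
    linarith
  · have hsub : ball (0 : ℂ) (4 * ξ) ⊆ ball (0 : ℂ) (22 / 5 * ξ) := ball_subset_ball (by linarith)
    have key3 : ∀ j : ℕ, ∀ w ∈ ball (0 : ℂ) (22 / 5 * ξ),
        (ff n c)^[p * j] w ∈ ball (0 : ℂ) (22 / 5 * ξ) := by
      intro j
      induction j with
      | zero =>
        intro w hw
        simpa using hw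
      | succ j ih =>
        intro w hw
        rw [Nat.mul_succ, Nat.add_comm, Function.iterate_add_apply]
        exact hsub (key2 _ (ih w hw))
    have hfil : ball (0 : ℂ) (22 / 5 * ξ) ⊆ filled n c := by
      intro w hw
      by_contra hwf
      obtain ⟨k₀, hk₀⟩ := exists_of_notMem_filled hn hwf (22 / 5 * ξ)
      have h1 := hk₀ (p * k₀) (Nat.le_mul_of_pos_left k₀ hp0)
      have h2 := key3 k₀ w hw
      rw [mem_ball_zero_iff] at h2
      exact absurd h1 (not_lt.2 h2.le)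
    have h3 : ball (0 : ℂ) (22 / 5 * ξ) ⊆ interior (filled n c) :=
      interior_maximal hfil isOpen_ball
    rw [hint] at h3
    exact h3 (mem_ball_self (by positivity))

end NR
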